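import Pool.Agent.Lib.MP_a267a3_lc.PV.DerB

/-!
# MP_a267a3_lc, Part V.6, end: unramified elements of `F` are in `k(u)`
-/

set_option autoImplicit false

namespace Pool.Agent.MPa267.PV

open Polynomial

universe u v w

variable {k : Type u} [Field k]

/-- an element of `k(u)` without poles at finite places is a polynomial -/
theorem poly_of_places [IsAlgClosed k] {F : Type v} [Field F] [Algebra k F] (u : F)
    (hu : u ∉ Set.range (algebraMap k F))
    (ha : ∀ z : F, IsAlgebraic (IntermediateField.adjoin k {u}) z) (c : F)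
    (h : ∀ (x : k) (e : F →+* Om k), Emb k e → e u = io k (PowerSeries.C x + PowerSeries.X) →
      ∃ f : PowerSeries k, e c = io k f) :
    ∀ (n : ℕ) (r s : k[X]), s.natDegree = n → s ≠ 0 → c * aeval u s = aeval u r →
      ∃ p : k[X], c = aeval u p := by
  intro n
  induction n with
  | zero =>
    intro r s hn hs hcr
    obtain ⟨a, rfl⟩ := natDegree_eq_zero.1 hn
    have ha0 : a ≠ 0 := by
      rintro rfl
      exact hs (map_zero C)
    refine ⟨C a⁻¹ * r, ?_⟩
    rw [aeval_C] at hcr
    rw [map_mul, aeval_C, ← hcr, mul_comm c, ← mul_assoc, ← map_mul, inv_mul_cancel₀ ha0, map_one,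
      one_mul]
  | succ n ih =>
    intro r s hn hs hcr
    have hd : s.degree ≠ 0 := by
      intro h0
      rw [degree_eq_natDegree hs] at h0
      have : s.natDegree = 0 := by exact_mod_cast h0
      omega
    obtain ⟨x, hx⟩ := IsAlgClosed.exists_root s hd
    obtain ⟨e, he, heu⟩ := exists_emb u hu ha (io k (PowerSeries.C x + PowerSeries.X))
      (io_ne_const (by simp))
    obtain ⟨f, hf⟩ := h x e he heu
    have h1 := congrArg e hcr
    rw [map_mul, emb_aeval he heu, emb_aeval he heu, hf, ← map_mul] at h1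
    have h2 := congrArg PowerSeries.constantCoeff (io_inj h1)
    have h3 : ∀ p : k[X], PowerSeries.constantCoeff
        (p.eval₂ PowerSeries.C (PowerSeries.C x + PowerSeries.X)) = p.eval x := by
      intro p
      rw [hom_eval₂, eval]
      congr 1
      simp
    rw [map_mul, h3, h3, IsRoot.def.1 hx, mul_zero] at h2
    obtain ⟨s', hs'⟩ := dvd_iff_isRoot.2 hx
    obtain ⟨r', hr'⟩ := dvd_iff_isRoot.2 (show r.IsRoot x from h2.symm)
    have hne : (X - C x : k[X]) ≠ 0 := X_sub_C_ne_zero x
    have hs'0 : s' ≠ 0 := by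
      rintro rfl
      exact hs (by rw [hs', mul_zero])
    refine ih r' s' ?_ hs'0 ?_
    · rw [hs', natDegree_mul hne hs'0, natDegree_X_sub_C] at hn
      omega
    · have hux : aeval u (X - C x : k[X]) ≠ 0 := by
        rw [aeval_def]
        exact eval₂_ne_zero (algebraMap k F) (fun a h => hu ⟨a, h.symm⟩) hne
      apply mul_left_cancel₀ hux
      rw [hs', hr', map_mul, map_mul] at hcr
      linear_combination hcr

/-- embeddings composed with automorphisms over `k(u)` -/
theorem emb_comp {F : Type v} [Field F] [Algebra k F] {u : F}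
    (α : F ≃ₐ[IntermediateField.adjoin k {u}] F) {e : F →+* Om k} (he : Emb k e) :
    Emb k (e.comp (α : F →+* F)) ∧ (e.comp (α : F →+* F)) u = e u := by
  constructor
  · intro c
    have : (α : F →+* F) (algebraMap k F c) = algebraMap k F c := by
      change α (algebraMap k F c) = algebraMap k F c
      rw [IsScalarTower.algebraMap_apply k (IntermediateField.adjoin k {u}) F, α.commutes]
    rw [RingHom.comp_apply, this]
    exact he c
  · have : (α : F →+* F) u = u :=
      α.commutes ⟨u, IntermediateField.mem_adjoin_simple_self k u⟩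
    rw [RingHom.comp_apply, this]

/-- the norm argument -/
theorem eq_zero_of_places [IsAlgClosed k] [CharZero k] {F : Type v} [Field F] [Algebra k F]
    [IsAlgClosed F] (u : F) (hu : u ∉ Set.range (algebraMap k F))
    (ha : ∀ z : F, IsAlgebraic (IntermediateField.adjoin k {u}) z) (g : F)
    (h1 : ∀ (x : k) (e : F →+* Om k), Emb k e → e u = io k (PowerSeries.C x + PowerSeries.X) →
      ∃ f : PowerSeries k, e g = io k f)
    (e0 : F →+* Om k) (he0 : Emb k e0) (heu0 : e0 u = jo k (si k))
    (h2 : ∀ α : F ≃ₐ[IntermediateField.adjoin k {u}] F,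
      ∃ f : PowerSeries k, e0 (α g) = io k (PowerSeries.X * f)) : g = 0 := by
  classical
  let K := IntermediateField.adjoin k {u}
  have halg : Algebra.IsAlgebraic K F := ⟨ha⟩
  have hclos : IsAlgClosure K F := ⟨inferInstance, halg⟩
  have hnorm : Normal K F := IsAlgClosure.normal K F
  have hint : IsIntegral K g := (ha g).isIntegral
  let P : F[X] := (minpoly K g).map (algebraMap K F)
  have hPm : P.Monic := (minpoly.monic hint).map _
  have hPs : P.Splits := IsAlgClosed.splits P
  have hroots : ∀ r ∈ P.roots, ∃ α : F ≃ₐ[K] F, α g = r := by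
    intro r hr
    rw [mem_roots hPm.ne_zero] at hr
    have h3 : IsConjRoot K g r := by
      rw [isConjRoot_iff_aeval_eq_zero hint]
      rw [IsRoot.def, eval_map] at hr
      exact hr
    exact isConjRoot_iff_exists_algEquiv.1 h3.symm
  have hc0 : P.coeff 0 = (-1) ^ P.natDegree * P.roots.prod :=
    hPs.coeff_zero_eq_prod_roots_of_monic hPm
  let c : F := P.coeff 0
  have hcK : c = algebraMap K F ((minpoly K g).coeff 0) := by
    change ((minpoly K g).map (algebraMap K F)).coeff 0 = _
    rw [coeff_map]
  -- all the values are power series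
  have hsub : ∀ e : F →+* Om k, (∀ α : F ≃ₐ[K] F, ∃ f : PowerSeries k, e (α g) = io k f) →
      ∀ m : Multiset F, (∀ r ∈ m, r ∈ P.roots) → ∃ f : PowerSeries k, e m.prod = io k f := by
    intro e he m hm
    have : m.prod ∈ Subring.comap e (io k).range := by
      apply Subring.multiset_prod_mem
      intro r hr
      obtain ⟨α, rfl⟩ := hroots r (hm r hr)
      obtain ⟨f, hf⟩ := he α
      exact ⟨f, hf.symm⟩
    obtain ⟨f, hf⟩ := this
    exact ⟨f, hf.symm⟩
  have hneg : ∀ (e : F →+* Om k) (n : ℕ), e ((-1) ^ n) = io k ((-1) ^ n) := by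
    intro e n
    rw [map_pow, map_pow, map_neg, map_neg, map_one, map_one]
  have hcfin : ∀ (x : k) (e : F →+* Om k), Emb k e →
      e u = io k (PowerSeries.C x + PowerSeries.X) → ∃ f : PowerSeries k, e c = io k f := by
    intro x e he heu
    obtain ⟨f, hf⟩ := hsub e (fun α => by
      obtain ⟨h3, h4⟩ := emb_comp α he
      exact h1 x _ h3 (h4.trans heu)) P.roots (fun r hr => hr)
    refine ⟨(-1) ^ P.natDegree * f, ?_⟩
    change e (P.coeff 0) = _
    rw [hc0, map_mul, hf, hneg, map_mul]
  -- at infinity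
  have hdeg : P.natDegree ≠ 0 := by
    have : P.natDegree = (minpoly K g).natDegree := (minpoly.monic hint).natDegree_map _
    rw [this]
    exact (minpoly.natDegree_pos hint).ne'
  have hcard : P.roots.card ≠ 0 := by
    rw [← hPs.natDegree_eq_card_roots]
    exact hdeg
  obtain ⟨r, hr⟩ := Multiset.card_pos_iff_exists_mem.1 (Nat.pos_of_ne_zero hcard)
  obtain ⟨m, hm⟩ := Multiset.exists_cons_of_mem hr
  have hinf : ∃ f : PowerSeries k, e0 c = io k (PowerSeries.X * f) := by
    obtain ⟨α, hα⟩ := hroots r hr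
    obtain ⟨f, hf⟩ := h2 α
    obtain ⟨f', hf'⟩ := hsub e0 (fun α => by
      obtain ⟨f, hf⟩ := h2 α
      exact ⟨_, hf⟩) m (fun r' hr' => by rw [hm]; exact Multiset.mem_cons_of_mem hr')
    refine ⟨(-1) ^ P.natDegree * f * f', ?_⟩
    change e0 (P.coeff 0) = _
    rw [hc0, map_mul, hneg, hm, Multiset.prod_cons, map_mul, hf', ← hα, hf, ← map_mul, ← map_mul]
    congr 1
    ring
  -- `c` is a polynomial
  obtain ⟨p, hp⟩ : ∃ p : k[X], c = aeval u p := by
    obtain ⟨r, s, hrs⟩ := (IntermediateField.mem_adjoin_simple_iff k c).1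
      (by rw [hcK]; exact ((minpoly K g).coeff 0).2)
    by_cases hs : s = 0
    · refine ⟨0, ?_⟩
      rw [hrs, hs, map_zero, div_zero]
    · have hs' : aeval u s ≠ 0 := by
        rw [aeval_def]
        exact eval₂_ne_zero (algebraMap k F) (fun a h => hu ⟨a, h.symm⟩) hs
      exact poly_of_places u hu ha c hcfin _ r s rfl hs (by rw [hrs, div_mul_cancel₀ _ hs'])
  obtain ⟨f, hf⟩ := hinf
  have hp0 : p = 0 := by
    by_contra hne
    have h3 : e0 (aeval u p) = jo k (p.eval₂ (ccH k) (si k)) := by
      rw [aeval_def, hom_eval₂, hom_eval₂, heu0]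
      congr 1
      ext c
      exact he0 c
    rw [← hp, hf, io_apply] at h3
    have h4 := jo_inj h3
    have h5 := eval_si_coeff p p.natDegree
    rw [← h4, map_mul, lo_X, ts_mul_coeff, lo_coeff_neg _ _ (by omega)] at h5
    exact hne (leadingCoeff_eq_zero.1 h5.symm)
  rw [hp0, map_zero] at hp
  rw [hcK] at hp
  have h6 : (minpoly K g).coeff 0 = 0 := by
    apply (algebraMap K F).injective
    rw [hp, map_zero]
  exact (minpoly.coeff_zero_eq_zero hint).1 h6

/-- **PV3** -/
theorem mem_base [IsAlgClosed k] [CharZero k] {F : Type v} [Field F] [Algebra k F]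
    [IsAlgClosed F] (u : F) (hu : u ∉ Set.range (algebraMap k F))
    (ha : ∀ z : F, IsAlgebraic (IntermediateField.adjoin k {u}) z) (f : F)
    (h1 : ∀ (x : k) (e : F →+* Om k), Emb k e → e u = io k (PowerSeries.C x + PowerSeries.X) →
      ∃ φ : LaurentSeries k, e f = jo k φ)
    (h2 : ∀ e : F →+* Om k, Emb k e → e u = jo k (HahnSeries.single (-1) 1) →
      ∃ φ : LaurentSeries k, e f = jo k φ) : f ∈ IntermediateField.adjoin k {u} := by
  classical
  let K := IntermediateField.adjoin k {u}
  have huK : ∀ p : k[X], aeval u p ∈ K := by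
    intro p
    have : aeval u p = ((aeval (⟨u, IntermediateField.mem_adjoin_simple_self k u⟩ : K) p : K) : F) :=
      aeval_algebraMap_apply F (⟨u, IntermediateField.mem_adjoin_simple_self k u⟩ : K) p
    rw [this]
    exact Subtype.coe_prop _
  obtain ⟨q, P, hq, hP, hz⟩ := exists_monic u f hu ha
  have hq' : aeval u q ≠ 0 := by
    rw [aeval_def]
    exact eval₂_ne_zero (algebraMap k F) (fun a h => hu ⟨a, h.symm⟩) hq
  let z : F := aeval u q * f
  -- the values of `z`
  have hz1 : ∀ (x : k) (e : F →+* Om k), Emb k e →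
      e u = io k (PowerSeries.C x + PowerSeries.X) → ∃ ψ : PowerSeries k, e z = io k ψ := by
    intro x e he heu
    obtain ⟨φ, hφ⟩ := h1 x e he heu
    have h3 : e z = jo k (lo k (q.eval₂ PowerSeries.C (PowerSeries.C x + PowerSeries.X)) * φ) := by
      change e (aeval u q * f) = _
      rw [map_mul, emb_aeval he heu, hφ, io_apply, ← map_mul]
    obtain ⟨ψ, hψ⟩ := integral_place hP hz he heu h3
    exact ⟨ψ, by rw [h3, hψ, io_apply]⟩
  have hz2 : ∀ e : F →+* Om k, Emb k e → e u = jo k (si k) →
      ∃ φ : LaurentSeries k, e z = jo k φ := by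
    intro e he heu
    obtain ⟨φ, hφ⟩ := h2 e he heu
    refine ⟨q.eval₂ (ccH k) (si k) * φ, ?_⟩
    change e (aeval u q * f) = _
    rw [map_mul, hφ, map_mul]
    congr 1
    rw [aeval_def, hom_eval₂, hom_eval₂, heu]
    congr 1
    ext c
    exact he c
  obtain ⟨D, hD⟩ := exists_der u hu ha
  -- iterated derivatives at finite places
  have hX : io k PowerSeries.X ≠ 0 := by
    intro h
    have := io_inj (h.trans (map_zero (io k)).symm)
    exact PowerSeries.X_ne_zero this
  have hfin : ∀ (x : k) (e : F →+* Om k), Emb k e →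
      e u = io k (PowerSeries.C x + PowerSeries.X) → ∀ ψ : PowerSeries k, e z = io k ψ →
      ∀ j : ℕ, e (D^[j] z) = io k (dr^[j] ψ) := by
    intro x e he heu ψ hψ j
    induction j with
    | zero => exact hψ
    | succ j ih =>
      rw [Function.iterate_succ_apply', Function.iterate_succ_apply']
      have h3 := hD (D^[j] z) e he _ _ heu ih
      rw [eu_lo, eu_lo] at h3
      have h4 : dr (PowerSeries.C x + PowerSeries.X : PowerSeries k) = 1 := by
        ext n
        rw [dr, PowerSeries.coeff_mk, map_add, PowerSeries.coeff_C, PowerSeries.coeff_X,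
          PowerSeries.coeff_one, if_neg (Nat.succ_ne_zero n), zero_add]
        by_cases h : n = 0
        · subst h; simp
        · rw [if_neg (by omega), if_neg h, mul_zero]
      rw [h4, mul_one, ← io_apply, ← io_apply, map_mul, mul_comm] at h3
      exact mul_left_cancel₀ hX h3
  -- iterated derivatives at infinity
  have hsi : jo k (si k) * jo k (ts k) = 1 := by rw [← map_mul, si_mul, map_one]
  have hinf : ∀ e : F →+* Om k, Emb k e → e u = jo k (si k) → ∀ φ : LaurentSeries k,
      e z = jo k φ → ∀ j : ℕ, e (D^[j] z) = jo k (dinf^[j] φ) := by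
    intro e he heu φ hφ j
    induction j with
    | zero => exact hφ
    | succ j ih =>
      rw [Function.iterate_succ_apply', Function.iterate_succ_apply']
      have h3 := hD (D^[j] z) e he _ _ heu ih
      rw [eu_si, map_neg] at h3
      rw [dinf, map_neg, map_mul]
      linear_combination (- jo k (ts k)) * h3 - e (D (D^[j] z)) * hsi
  have hod : ∀ (m : ℤ) (φ : LaurentSeries k), Od m φ → ∀ j : ℕ, Od (m + j) (dinf^[j] φ) := by
    intro m φ h j
    induction j with
    | zero => simpa using h
    | succ j ih =>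
      rw [Function.iterate_succ_apply']
      have := od_dinf ih
      push_cast
      rw [← add_assoc]
      exact this
  -- a place at infinity
  obtain ⟨e0, he0, heu0⟩ := exists_emb u hu ha (jo k (si k)) (by
    intro c h
    rw [io_apply] at h
    have h3 := jo_inj h
    have h4 := congrArg (fun φ : LaurentSeries k => φ.coeff (-1)) h3
    simp only [si, HahnSeries.coeff_single_same] at h4
    rw [lo_coeff_neg _ _ (by norm_num)] at h4
    exact one_ne_zero h4)
  -- a uniform bound for the order
  obtain ⟨N, hN⟩ : ∃ N : ℕ, ∀ α : F ≃ₐ[K] F, ∀ φ : LaurentSeries k, e0 (α z) = jo k φ →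
      Od (-(N : ℤ)) φ := by
    have hint : IsIntegral K z := (ha z).isIntegral
    have hNz : ∀ y : F, ∃ N : ℕ, ∀ φ : LaurentSeries k, e0 y = jo k φ → Od (-(N : ℤ)) φ := by
      intro y
      by_cases hy : ∃ φ : LaurentSeries k, e0 y = jo k φ
      · obtain ⟨φ, hφ⟩ := hy
        obtain ⟨N, hN⟩ := exists_od φ
        refine ⟨N, fun φ' hφ' => ?_⟩
        have := jo_inj (hφ.symm.trans hφ')
        rw [← this]
        exact hN
      · exact ⟨0, fun φ hφ => (hy ⟨φ, hφ⟩).elim⟩
    choose N hN using hNz
    let R : Finset F := ((minpoly K z).map (algebraMap K F)).roots.toFinset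
    refine ⟨R.sup N, fun α φ hφ => ?_⟩
    have hmem : α z ∈ R := by
      rw [Multiset.mem_toFinset, mem_roots ((minpoly.monic hint).map _).ne_zero, IsRoot.def,
        eval_map]
      have : aeval (α z) (minpoly K z) = 0 := by
        rw [aeval_algHom_apply α z, minpoly.aeval, map_zero]
      exact this
    have hle : N (α z) ≤ R.sup N := Finset.le_sup hmem
    exact (hN (α z) φ hφ).mono (by
      have : ((N (α z) : ℕ) : ℤ) ≤ ((R.sup N : ℕ) : ℤ) := by exact_mod_cast hle
      omega)
  -- the derivative of order `N + 1` vanishes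
  have hzero : D^[N + 1] z = 0 := by
    refine eq_zero_of_places u hu ha _ ?_ e0 he0 heu0 ?_
    · intro x e he heu
      obtain ⟨ψ, hψ⟩ := hz1 x e he heu
      exact ⟨_, hfin x e he heu ψ hψ (N + 1)⟩
    · intro α
      obtain ⟨h3, h4⟩ := emb_comp α he0
      obtain ⟨φ, hφ⟩ := hz2 _ h3 (h4.trans heu0)
      have h5 := hinf _ h3 (h4.trans heu0) φ hφ (N + 1)
      have h6 : Od 1 (dinf^[N + 1] φ) := by
        have := hod _ φ (hN α φ hφ) (N + 1)
        push_cast at this
        rw [neg_add_cancel_left] at this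
        exact this
      obtain ⟨g, hg⟩ := od_one h6
      refine ⟨g, ?_⟩
      rw [io_apply, ← hg]
      exact h5
  -- a place at zero
  obtain ⟨e, he, heu⟩ := exists_emb u hu ha (io k (PowerSeries.C 0 + PowerSeries.X))
    (io_ne_const (by simp))
  obtain ⟨ψ, hψ⟩ := hz1 0 e he heu
  have h7 := hfin 0 e he heu ψ hψ (N + 1)
  rw [hzero, map_zero] at h7
  have h8 : dr^[N + 1] ψ = 0 := io_inj (h7.symm.trans (map_zero (io k)).symm)
  obtain ⟨p, hp⟩ := poly_of_dr ψ (N + 1) h8
  have h9 : z = aeval u p := by
    apply e.injective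
    rw [emb_aeval he heu, hψ, ← hp, map_zero, zero_add]
  have h10 : f = aeval u p / aeval u q := by
    rw [← h9]
    change f = aeval u q * f / aeval u q
    rw [mul_div_cancel_left₀ _ hq']
  rw [h10]
  exact K.div_mem (huK p) (huK q)

end Pool.Agent.MPa267.PV
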