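import Mathlib

/-!
# MP_a267a3_lc, Part V: Laurent series and embeddings into the algebraic closure of `k((s))`

`io k : k[[s]] → Om k`, `jo k : k((s)) → Om k`, `Emb k e` : the ring homomorphism `e : F → Om k` is a
homomorphism over `k`; the Euler operator `eu` (`s d/ds`) of `k((s))`.
-/

set_option autoImplicit false

namespace Pool.Agent.MPa267.PV

open Polynomial

universe u v

/-- the algebraic closure of `k((s))` -/
abbrev Om (k : Type u) [Field k] : Type u := AlgebraicClosure (LaurentSeries k)

/-- `k((s))` inside its algebraic closure -/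
noncomputable def jo (k : Type u) [Field k] : LaurentSeries k →+* Om k :=
  algebraMap (LaurentSeries k) (AlgebraicClosure (LaurentSeries k))

/-- `k[[s]]` inside `k((s))` -/
noncomputable def lo (k : Type u) [Field k] : PowerSeries k →+* LaurentSeries k :=
  HahnSeries.ofPowerSeries ℤ k

/-- `k[[s]]` inside the algebraic closure of `k((s))` -/
noncomputable def io (k : Type u) [Field k] : PowerSeries k →+* Om k := (jo k).comp (lo k)

variable {k : Type u} [Field k]

theorem jo_inj : Function.Injective (jo k) := (jo k).injective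

theorem lo_inj : Function.Injective (lo k) := HahnSeries.ofPowerSeries_injective

theorem io_inj : Function.Injective (io k) := jo_inj.comp lo_inj

theorem io_apply (f : PowerSeries k) : io k f = jo k (lo k f) := rfl

theorem lo_coeff_nat (f : PowerSeries k) (n : ℕ) : (lo k f).coeff (n : ℤ) = PowerSeries.coeff n f := by
  exact HahnSeries.ofPowerSeries_apply_coeff (Γ := ℤ) f n

theorem lo_coeff_neg (f : PowerSeries k) (n : ℤ) (h : n < 0) : (lo k f).coeff n = 0 := by
  change (HahnSeries.ofPowerSeries ℤ k f).coeff n = 0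
  rw [HahnSeries.ofPowerSeries_apply]
  apply HahnSeries.embDomain_of_notMem_range
  rintro ⟨m, hm⟩
  change ((m : ℕ) : ℤ) = n at hm
  omega

/-- a Laurent series without negative part is a power series -/
theorem exists_lo (f : LaurentSeries k) (h : ∀ n : ℤ, n < 0 → f.coeff n = 0) :
    ∃ g : PowerSeries k, f = lo k g := by
  refine ⟨PowerSeries.mk fun n => f.coeff (n : ℤ), ?_⟩
  ext n
  rcases lt_or_ge n 0 with hn | hn
  · rw [h n hn, lo_coeff_neg _ _ hn]
  · obtain ⟨m, rfl⟩ := Int.eq_ofNat_of_zero_le hn
    rw [lo_coeff_nat, PowerSeries.coeff_mk]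

/-- ring homomorphisms `F → Om k` over `k` -/
def Emb (k : Type u) [Field k] {F : Type v} [Field F] [Algebra k F] (e : F →+* Om k) : Prop :=
  ∀ c : k, e (algebraMap k F c) = io k (PowerSeries.C c)

/-! ## The Euler operator -/

/-- the Euler operator `s d/ds` -/
noncomputable def eu (f : LaurentSeries k) : LaurentSeries k where
  coeff n := (n : k) * f.coeff n
  isPWO_support' := f.isPWO_support.mono (by
    intro n hn h0
    apply hn
    change (n : k) * f.coeff n = 0
    rw [h0, mul_zero])

theorem eu_coeff (f : LaurentSeries k) (n : ℤ) : (eu f).coeff n = (n : k) * f.coeff n := rfl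

theorem eu_supp (f : LaurentSeries k) : (eu f).support ⊆ f.support := by
  intro n hn h0
  apply hn
  rw [eu_coeff, h0, mul_zero]

theorem eu_add (f g : LaurentSeries k) : eu (f + g) = eu f + eu g := by
  ext n
  simp only [eu_coeff, HahnSeries.coeff_add]
  ring

theorem eu_zero : eu (0 : LaurentSeries k) = 0 := by
  ext n
  simp [eu_coeff]

theorem eu_mul (f g : LaurentSeries k) : eu (f * g) = eu f * g + f * eu g := by
  ext n
  rw [HahnSeries.coeff_add, eu_coeff, HahnSeries.coeff_mul,
    HahnSeries.coeff_mul_left' f.isPWO_support (eu_supp f),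
    HahnSeries.coeff_mul_right' g.isPWO_support (eu_supp g), ← Finset.sum_add_distrib,
    Finset.mul_sum]
  apply Finset.sum_congr rfl
  rintro ⟨i, j⟩ hij
  have h : i + j = n := (Finset.mem_antidiagonal.1 hij).2.2
  rw [eu_coeff, eu_coeff, ← h]
  push_cast
  ring

/-- constants -/
noncomputable def cc (c : k) : LaurentSeries k := lo k (PowerSeries.C c)

theorem cc_coeff (c : k) (n : ℤ) : (cc c).coeff n = if n = 0 then c else 0 := by
  rcases lt_or_ge n 0 with hn | hn
  · rw [cc, lo_coeff_neg _ _ hn, if_neg hn.ne]
  · obtain ⟨m, rfl⟩ := Int.eq_ofNat_of_zero_le hn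
    rw [cc, lo_coeff_nat, PowerSeries.coeff_C]
    simp

theorem eu_cc (c : k) : eu (cc c) = 0 := by
  ext n
  rw [eu_coeff, cc_coeff]
  split_ifs with h
  · subst h; simp
  · simp

/-- the ring homomorphism `k → k((s))` -/
noncomputable def ccH (k : Type u) [Field k] : k →+* LaurentSeries k :=
  (lo k).comp (PowerSeries.C (R := k))

theorem ccH_apply (c : k) : ccH k c = cc c := rfl

theorem eu_pow (f : LaurentSeries k) (n : ℕ) : eu (f ^ n) = (n : LaurentSeries k) * f ^ (n - 1) * eu f := by
  induction n with
  | zero =>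
    have : (1 : LaurentSeries k) = cc 1 := by
      change (1 : LaurentSeries k) = ccH k 1
      rw [map_one]
    rw [pow_zero, this, eu_cc]
    simp
  | succ n ih =>
    rw [pow_succ, eu_mul, ih]
    rcases n with _ | n
    · simp
    · simp only [Nat.succ_sub_one]
      push_cast
      ring

/-- chain rule in one variable -/
theorem eu_eval (q : k[X]) (w : LaurentSeries k) :
    eu (q.eval₂ (ccH k) w) = (derivative q).eval₂ (ccH k) w * eu w := by
  induction q using Polynomial.induction_on' with
  | add p q hp hq => rw [eval₂_add, eu_add, hp, hq, derivative_add, eval₂_add]; ring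
  | monomial n a =>
    rw [eval₂_monomial, eu_mul, ccH_apply, eu_cc, eu_pow, derivative_monomial, eval₂_monomial,
      map_mul, map_natCast, ccH_apply]
    ring

/-- evaluation of a polynomial in two variables -/
noncomputable def ev2 {R : Type v} [CommRing R] (c : k →+* R) (x y : R) : (k[X])[X] →+* R :=
  eval₂RingHom (eval₂RingHom c x) y

theorem ev2_C {R : Type v} [CommRing R] (c : k →+* R) (x y : R) (q : k[X]) :
    ev2 c x y (C q) = q.eval₂ c x := by
  simp [ev2]

theorem ev2_X {R : Type v} [CommRing R] (c : k →+* R) (x y : R) :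
    ev2 c x y X = y := by
  simp [ev2]

/-- chain rule in two variables -/
theorem exists_partial (Q : (k[X])[X]) : ∃ Q₁ : (k[X])[X], ∀ w z : LaurentSeries k,
    eu (ev2 (ccH k) w z Q) = ev2 (ccH k) w z Q₁ * eu w + ev2 (ccH k) w z (derivative Q) * eu z := by
  induction Q using Polynomial.induction_on' with
  | add p q hp hq =>
    obtain ⟨P₁, hP⟩ := hp
    obtain ⟨Q₁, hQ⟩ := hq
    refine ⟨P₁ + Q₁, fun w z => ?_⟩
    rw [map_add, eu_add, hP, hQ, derivative_add, map_add, map_add]
    ring
  | monomial n a =>
    refine ⟨monomial n (derivative a), fun w z => ?_⟩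
    have h : ∀ (m : ℕ) (b : k[X]), ev2 (ccH k) w z (monomial m b) = b.eval₂ (ccH k) w * z ^ m := by
      intro m b
      simp [ev2]
    rw [h, eu_mul, eu_eval, eu_pow, h, derivative_monomial, h, eval₂_mul, eval₂_natCast]
    ring

/-- functoriality of the evaluation -/
theorem map_ev2 {R : Type v} {S : Type*} [CommRing R] [CommRing S] (φ : R →+* S) (c : k →+* R) (x y : R)
    (Q : (k[X])[X]) : φ (ev2 c x y Q) = ev2 (φ.comp c) (φ x) (φ y) Q := by
  have : (φ.comp (ev2 c x y)) = ev2 (φ.comp c) (φ x) (φ y) := by
    apply Polynomial.ringHom_ext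
    · intro a
      simp only [RingHom.comp_apply, ev2_C]
      rw [Polynomial.hom_eval₂]
    · simp only [RingHom.comp_apply, ev2_X]
  rw [← this]; rfl

end Pool.Agent.MPa267.PV
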