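import Pool.Agent.Lib.MP_a267a3_lc.PV.Hens

/-!
# MP_a267a3_lc, Part V: existence and comparison of embeddings into the closure of `k((s))`
-/

set_option autoImplicit false

namespace Pool.Agent.MPa267.PV

open Polynomial

universe u v w

variable {k : Type u} [Field k]

/-- elements outside the algebraically closed `k` are transcendental -/
theorem eval₂_ne_zero [IsAlgClosed k] {M : Type w} [Field M] (c : k →+* M) {ξ : M}
    (hξ : ∀ a : k, ξ ≠ c a) {p : k[X]} (hp : p ≠ 0) : p.eval₂ c ξ ≠ 0 := by
  intro h
  have h1 : (p.map c).IsRoot ξ := by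
    rw [IsRoot.def, eval_map]
    exact h
  obtain ⟨a, ha⟩ := (IsAlgClosed.splits p).mem_range_of_isRoot hp h1
  exact hξ a ha.symm

/-- extension of `k(u) → M` to an algebraic extension `F` of `k(u)` -/
theorem exists_lift [IsAlgClosed k] {F : Type v} [Field F] [Algebra k F] {M : Type w} [Field M]
    [IsAlgClosed M] (c : k →+* M) (u : F) (hu : u ∉ Set.range (algebraMap k F))
    (ha : ∀ z : F, IsAlgebraic (IntermediateField.adjoin k {u}) z) (ξ : M) (hξ : ∀ a : k, ξ ≠ c a) :
    ∃ e : F →+* M, (∀ a : k, e (algebraMap k F a) = c a) ∧ e u = ξ := by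
  classical
  let K := IntermediateField.adjoin k {u}
  let uK : K := ⟨u, IntermediateField.mem_adjoin_simple_self k u⟩
  let iF : Algebra k[X] F := ((aeval u : k[X] →ₐ[k] F) : k[X] →+* F).toAlgebra
  let iK : Algebra k[X] K := ((aeval uK : k[X] →ₐ[k] K) : k[X] →+* K).toAlgebra
  let iM : Algebra k[X] M := (eval₂RingHom c ξ).toAlgebra
  have eF : ∀ p : k[X], algebraMap k[X] F p = aeval u p := fun _ => rfl
  have eK : ∀ p : k[X], algebraMap k[X] K p = aeval uK p := fun _ => rfl
  have eM : ∀ p : k[X], algebraMap k[X] M p = p.eval₂ c ξ := fun _ => rfl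
  have hKF : ∀ p : k[X], algebraMap k[X] F p = algebraMap K F (algebraMap k[X] K p) := by
    intro p
    rw [eF, eK]
    exact (aeval_algebraMap_apply F uK p)
  have tower : IsScalarTower k[X] K F := IsScalarTower.of_algebraMap_eq hKF
  have injF : Function.Injective (algebraMap k[X] F) := by
    rw [injective_iff_map_eq_zero]
    intro p hp
    by_contra h0
    rw [eF, aeval_def] at hp
    exact eval₂_ne_zero (algebraMap k F) (fun a h => hu ⟨a, h.symm⟩) h0 hp
  have injM : Function.Injective (algebraMap k[X] M) := by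
    rw [injective_iff_map_eq_zero]
    intro p hp
    by_contra h0
    rw [eM] at hp
    exact eval₂_ne_zero c hξ h0 hp
  have injK : Function.Injective (algebraMap k[X] K) := by
    intro p q hpq
    apply injF
    rw [hKF, hKF, hpq]
  have tF : Module.IsTorsionFree k[X] F := by
    rw [Module.isTorsionFree_iff_algebraMap_injective]
    exact injF
  have tM : Module.IsTorsionFree k[X] M := by
    rw [Module.isTorsionFree_iff_algebraMap_injective]
    exact injM
  have algK : Algebra.IsAlgebraic k[X] K := by
    refine ⟨fun x => ?_⟩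
    obtain ⟨r, s, hrs⟩ := (IntermediateField.mem_adjoin_simple_iff k (x : F)).1 x.2
    by_cases hs : s = 0
    · have hx : x = algebraMap k[X] K 0 := by
        apply Subtype.ext
        rw [hrs, hs]
        simp
      rw [hx]
      exact isAlgebraic_algebraMap _
    · have hs' : algebraMap k[X] F s ≠ 0 := by
        intro h
        apply hs
        apply injF
        rw [h, map_zero]
      refine ⟨C s * X - C r, ?_, ?_⟩
      · intro h
        have := congrArg (fun q => q.coeff 1) h
        simp at this
        exact hs this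
      · have hx : algebraMap k[X] K s * x = algebraMap k[X] K r := by
          apply Subtype.ext
          change algebraMap K F _ * (x : F) = algebraMap K F _
          rw [← hKF, ← hKF, hrs, ← eF, ← eF, mul_div_cancel₀ _ hs']
        rw [map_sub, map_mul, aeval_C, aeval_C, aeval_X, hx, sub_self]
  have algF : Algebra.IsAlgebraic k[X] F := ⟨fun z => (ha z).restrictScalars k[X]⟩
  let e : F →ₐ[k[X]] M := IsAlgClosed.lift
  refine ⟨(e : F →+* M), ?_, ?_⟩
  · intro a
    have h1 : algebraMap k F a = algebraMap k[X] F (C a) := by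
      rw [eF, aeval_C]
    change e (algebraMap k F a) = c a
    rw [h1, e.commutes, eM, eval₂_C]
  · have h1 : u = algebraMap k[X] F X := by
      rw [eF, aeval_X]
    change e u = ξ
    conv_lhs => rw [h1]
    rw [e.commutes, eM, eval₂_X]

/-- **PV1** -/
theorem exists_emb [IsAlgClosed k] {F : Type v} [Field F] [Algebra k F] (u : F)
    (hu : u ∉ Set.range (algebraMap k F))
    (ha : ∀ z : F, IsAlgebraic (IntermediateField.adjoin k {u}) z) (ξ : Om k)
    (hξ : ∀ c : k, ξ ≠ io k (PowerSeries.C c)) : ∃ e : F →+* Om k, Emb k e ∧ e u = ξ :=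
  exists_lift ((io k).comp PowerSeries.C) u hu ha ξ hξ

/-- a power series with nonzero first coefficient is not a constant -/
theorem io_ne_const {f : PowerSeries k} (hf : PowerSeries.coeff 1 f ≠ 0) (c : k) :
    io k f ≠ io k (PowerSeries.C c) := by
  intro h
  have := io_inj h
  rw [this] at hf
  apply hf
  rw [PowerSeries.coeff_C]
  simp

/-- **PV1'**: places where finitely many given elements are units -/
theorem good_emb [IsAlgClosed k] [CharZero k] {F : Type v} [Field F] [Algebra k F] (u : F)
    (hu : u ∉ Set.range (algebraMap k F))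
    (ha : ∀ z : F, IsAlgebraic (IntermediateField.adjoin k {u}) z) (V : Set F) (hV : V.Finite)
    (h0 : ∀ v ∈ V, v ≠ 0) (T : Set k) (hT : T.Finite) :
    ∃ (x : k) (e : F →+* Om k), x ∉ T ∧ Emb k e ∧
      e u = io k (PowerSeries.C x + PowerSeries.X) ∧
      ∀ v ∈ V, ∃ f : PowerSeries k, PowerSeries.constantCoeff f ≠ 0 ∧ e v = io k f := by
  classical
  choose S hSf hS using fun z : F => good_place u z (ha z)
  have hfin : ((⋃ v ∈ V, (S v ∪ S v⁻¹)) ∪ T).Finite :=
    (Set.Finite.biUnion hV fun v _ => (hSf v).union (hSf v⁻¹)).union hT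
  obtain ⟨x, hx⟩ := hfin.exists_notMem
  have hc : PowerSeries.constantCoeff (PowerSeries.C x + PowerSeries.X : PowerSeries k) = x := by
    simp
  obtain ⟨e, he, heu⟩ := exists_emb u hu ha (io k (PowerSeries.C x + PowerSeries.X))
    (io_ne_const (by simp))
  refine ⟨x, e, fun h => hx (Or.inr h), he, heu, ?_⟩
  intro v hv
  have hxv : x ∉ S v := fun h => hx (Or.inl (Set.mem_iUnion₂.2 ⟨v, hv, Or.inl h⟩))
  have hxv' : x ∉ S v⁻¹ := fun h => hx (Or.inl (Set.mem_iUnion₂.2 ⟨v, hv, Or.inr h⟩))
  obtain ⟨f, hf⟩ := hS v e he _ heu (by rw [hc]; exact hxv)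
  obtain ⟨g, hg⟩ := hS v⁻¹ e he _ heu (by rw [hc]; exact hxv')
  refine ⟨f, ?_, hf⟩
  intro h
  have h1 : io k (f * g) = io k 1 := by
    rw [map_mul, ← hf, ← hg, ← map_mul, mul_inv_cancel₀ (h0 v hv), map_one, map_one]
  have h2 := congrArg PowerSeries.constantCoeff (io_inj h1)
  rw [map_mul, h, zero_mul, map_one] at h2
  exact zero_ne_one h2

/-- the image of an embedding contains everything algebraic over `k(e w)` -/
theorem range_le [IsAlgClosed k] {F : Type v} [Field F] [Algebra k F] [IsAlgClosed F] (w w' : F)
    (ha : ∀ z : F, IsAlgebraic (IntermediateField.adjoin k {w}) z)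
    {e e' : F →+* Om k} (he : Emb k e) (he' : Emb k e') (h : e w = e' w') (z : F) :
    ∃ z' : F, e' z' = e z := by
  classical
  let K := IntermediateField.adjoin k {w}
  have hint : IsIntegral K z := (ha z).isIntegral
  -- the coefficients are in the range of `e'`
  have hcoef : ∀ c ∈ IntermediateField.adjoin k {w}, ∃ c' : F, e' c' = e c := by
    intro c hc
    obtain ⟨r, s, rfl⟩ := (IntermediateField.mem_adjoin_simple_iff k c).1 hc
    refine ⟨aeval w' r / aeval w' s, ?_⟩
    have hcomp : e'.comp (algebraMap k F) = e.comp (algebraMap k F) := by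
      ext c
      exact (he' c).trans (he c).symm
    have h1 : ∀ p : k[X], e' (aeval w' p) = e (aeval w p) := by
      intro p
      rw [aeval_def, aeval_def, hom_eval₂, hom_eval₂, hcomp, h]
    rw [map_div₀, map_div₀, h1, h1]
  have hl : (minpoly K z).map (e.comp (algebraMap K F)) ∈ lifts e' := by
    rw [lifts_iff_coeff_lifts]
    intro n
    obtain ⟨c', hc'⟩ := hcoef ((minpoly K z).coeff n : F) ((minpoly K z).coeff n).2
    exact ⟨c', by rw [coeff_map, hc']; rfl⟩
  obtain ⟨P, hP⟩ := (mem_lifts _).1 hl
  have hP0 : P ≠ 0 := by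
    rintro rfl
    rw [Polynomial.map_zero] at hP
    have := (minpoly.monic hint).map (e.comp (algebraMap K F))
    rw [← hP] at this
    exact this.ne_zero rfl
  have hroot : (P.map e').IsRoot (e z) := by
    rw [hP, IsRoot.def, eval_map, ← hom_eval₂]
    have : eval₂ (algebraMap K F) z (minpoly K z) = 0 := minpoly.aeval K z
    rw [this, map_zero]
  exact (IsAlgClosed.splits P).mem_range_of_isRoot hP0 hroot

/-- **PV4** -/
theorem exists_aut [IsAlgClosed k] {F : Type v} [Field F] [Algebra k F] [IsAlgClosed F] (w w' : F)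
    (ha : ∀ z : F, IsAlgebraic (IntermediateField.adjoin k {w}) z)
    (ha' : ∀ z : F, IsAlgebraic (IntermediateField.adjoin k {w'}) z)
    (e e' : F →+* Om k) (he : Emb k e) (he' : Emb k e') (h : e w = e' w') :
    ∃ α : F ≃+* F, (∀ c : k, α (algebraMap k F c) = algebraMap k F c) ∧ α w = w' ∧
      ∀ z, e' (α z) = e z := by
  classical
  choose a hae using fun z => range_le w w' ha he he' h z
  choose b hbe using fun z => range_le w' w ha' he' he h.symm z
  have hi := e.injective
  have hi' := e'.injective
  let α : F ≃+* F :=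
    { toFun := a
      invFun := b
      left_inv := fun z => hi (by rw [hbe, hae])
      right_inv := fun z => hi' (by rw [hae, hbe])
      map_mul' := fun x y => hi' (by rw [map_mul, hae, hae, hae, map_mul])
      map_add' := fun x y => hi' (by rw [map_add, hae, hae, hae, map_add]) }
  refine ⟨α, ?_, ?_, hae⟩
  · intro c
    apply hi'
    change e' (a _) = _
    rw [hae, he, he']
  · apply hi'
    change e' (a _) = _
    rw [hae, h]

end Pool.Agent.MPa267.PV
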