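import Pool.Agent.Lib.MP_a267a3_lc.PV.Ext

/-!
# MP_a267a3_lc, Part V: the automorphisms `s ↦ t s`
-/

set_option autoImplicit false

namespace Pool.Agent.MPa267.PV

open Polynomial

universe u v w

variable {k : Type u} [Field k]

/-- `f(s) ↦ f(t s)` -/
noncomputable def scf (t : k) (f : LaurentSeries k) : LaurentSeries k where
  coeff n := t ^ n * f.coeff n
  isPWO_support' := f.isPWO_support.mono (by
    intro n hn h0
    apply hn
    change t ^ n * f.coeff n = 0
    rw [h0, mul_zero])

theorem scf_coeff (t : k) (f : LaurentSeries k) (n : ℤ) : (scf t f).coeff n = t ^ n * f.coeff n := rfl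

theorem scf_supp (t : k) (f : LaurentSeries k) : (scf t f).support ⊆ f.support := by
  intro n hn h0
  apply hn
  rw [scf_coeff, h0, mul_zero]

theorem scf_mul {t : k} (ht : t ≠ 0) (f g : LaurentSeries k) : scf t (f * g) = scf t f * scf t g := by
  ext n
  rw [scf_coeff, HahnSeries.coeff_mul, HahnSeries.coeff_mul_left' f.isPWO_support (scf_supp t f)]
  have : ∑ ij ∈ Finset.antidiagonal f.isPWO_support (scf t g).isPWO_support n,
      (scf t f).coeff ij.1 * (scf t g).coeff ij.2
      = ∑ ij ∈ Finset.antidiagonal f.isPWO_support g.isPWO_support n,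
      (scf t f).coeff ij.1 * (scf t g).coeff ij.2 := by
    apply Finset.sum_subset
    · intro ij hij
      rw [Finset.mem_antidiagonal] at hij ⊢
      exact ⟨hij.1, scf_supp t g hij.2.1, hij.2.2⟩
    · intro ij hij hij'
      rw [Finset.mem_antidiagonal] at hij hij'
      have : (scf t g).coeff ij.2 = 0 := by
        by_contra h
        exact hij' ⟨hij.1, h, hij.2.2⟩
      rw [this, mul_zero]
  rw [this, Finset.mul_sum]
  apply Finset.sum_congr rfl
  rintro ⟨i, j⟩ hij
  have h : i + j = n := (Finset.mem_antidiagonal.1 hij).2.2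
  rw [scf_coeff, scf_coeff, ← h, zpow_add₀ ht]
  ring

/-- the automorphism `s ↦ t s` of `k((s))` -/
noncomputable def scE (t : k) (ht : t ≠ 0) : LaurentSeries k ≃+* LaurentSeries k where
  toFun := scf t
  invFun := scf t⁻¹
  left_inv f := by
    ext n
    rw [scf_coeff, scf_coeff, ← mul_assoc, ← mul_zpow, inv_mul_cancel₀ ht, one_zpow, one_mul]
  right_inv f := by
    ext n
    rw [scf_coeff, scf_coeff, ← mul_assoc, ← mul_zpow, mul_inv_cancel₀ ht, one_zpow, one_mul]
  map_mul' := scf_mul ht
  map_add' f g := by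
    ext n
    simp only [scf_coeff, HahnSeries.coeff_add]
    ring

theorem scE_lo (t : k) (ht : t ≠ 0) (f : PowerSeries k) :
    scE t ht (lo k f) = lo k (PowerSeries.mk fun n => t ^ n * PowerSeries.coeff n f) := by
  ext n
  change (scf t (lo k f)).coeff n = _
  rw [scf_coeff]
  rcases lt_or_ge n 0 with hn | hn
  · rw [lo_coeff_neg _ _ hn, lo_coeff_neg _ _ hn, mul_zero]
  · obtain ⟨m, rfl⟩ := Int.eq_ofNat_of_zero_le hn
    rw [lo_coeff_nat, lo_coeff_nat, PowerSeries.coeff_mk, zpow_natCast]

/-- **PV5** -/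
theorem exists_scale (t : k) (ht : t ≠ 0) : ∃ θ : Om k ≃+* Om k,
    (∀ c : k, θ (io k (PowerSeries.C c)) = io k (PowerSeries.C c)) ∧
    θ (io k PowerSeries.X) = io k (PowerSeries.C t * PowerSeries.X) ∧
    (∀ z, (∃ φ : LaurentSeries k, z = jo k φ) ↔ ∃ φ : LaurentSeries k, θ z = jo k φ) ∧
    (∀ f : PowerSeries k, ∃ g : PowerSeries k, θ (io k f) = io k g ∧
      PowerSeries.constantCoeff g = PowerSeries.constantCoeff f) := by
  let θ : Om k ≃+* Om k := IsAlgClosure.equivOfEquiv (AlgebraicClosure (LaurentSeries k))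
    (AlgebraicClosure (LaurentSeries k)) (scE t ht)
  have hθ : ∀ φ : LaurentSeries k, θ (jo k φ) = jo k (scE t ht φ) := fun φ =>
    IsAlgClosure.equivOfEquiv_algebraMap (AlgebraicClosure (LaurentSeries k))
      (AlgebraicClosure (LaurentSeries k)) (scE t ht) φ
  have hio : ∀ f : PowerSeries k, θ (io k f)
      = io k (PowerSeries.mk fun n => t ^ n * PowerSeries.coeff n f) := by
    intro f
    rw [io_apply, hθ, scE_lo, io_apply]
  refine ⟨θ, ?_, ?_, ?_, ?_⟩
  · intro c
    rw [hio]
    congr 1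
    ext n
    rw [PowerSeries.coeff_mk, PowerSeries.coeff_C]
    split_ifs with h
    · rw [h, pow_zero, one_mul]
    · rw [mul_zero]
  · rw [hio]
    congr 1
    ext n
    rw [PowerSeries.coeff_mk, PowerSeries.coeff_C_mul, PowerSeries.coeff_X]
    split_ifs with h
    · rw [h, pow_one]
    · rw [mul_zero, mul_zero]
  · intro z
    constructor
    · rintro ⟨φ, rfl⟩
      exact ⟨_, hθ φ⟩
    · rintro ⟨φ, hφ⟩
      refine ⟨(scE t ht).symm φ, ?_⟩
      apply θ.injective
      rw [hφ, hθ, RingEquiv.apply_symm_apply]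
  · intro f
    refine ⟨_, hio f, ?_⟩
    rw [← PowerSeries.coeff_zero_eq_constantCoeff_apply, PowerSeries.coeff_mk, pow_zero, one_mul,
      PowerSeries.coeff_zero_eq_constantCoeff_apply]

end Pool.Agent.MPa267.PV
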