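import Pool.Agent.Lib.MP_a267a3_lc.PV.DerC
import Pool.Agent.Lib.MP_a267a3_lc.D1.Spec

/-!
# MP_a267a3_lc, Part V: `F` is algebraic over `k(u)`
-/

set_option autoImplicit false

namespace Pool.Agent.MPa267.PV

open Polynomial

universe u

/-- **PV0** -/
theorem alg_over {F : Type u} [Field F] (h1 : D1.TD1 F) {t : F} (ht : t ∉ acl (∅ : Set F)) (z : F) :
    IsAlgebraic (IntermediateField.adjoin (acl (∅ : Set F)) {t}) z := by
  have hz : z ∈ acl ({t} : Set F) := by
    rw [h1 t ht]
    exact Subfield.mem_top z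
  rw [mem_acl] at hz
  obtain ⟨p, hp, hpz⟩ := hz
  have hle : Subfield.closure ({t} : Set F) ≤
      (IntermediateField.adjoin (acl (∅ : Set F)) {t}).toSubfield := by
    rw [Subfield.closure_le]
    rintro _ rfl
    exact IntermediateField.mem_adjoin_simple_self _ _
  let i : Subfield.closure ({t} : Set F) →+* IntermediateField.adjoin (acl (∅ : Set F)) {t} :=
    Subfield.inclusion hle
  refine ⟨p.map i, ?_, ?_⟩
  · rwa [Ne, Polynomial.map_eq_zero_iff i.injective]
  · rw [aeval_def, eval₂_map]
    exact hpz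

/-- an element outside `k` is not in the range of `k → F` -/
theorem notMem_range {F : Type u} [Field F] {t : F} (ht : t ∉ acl (∅ : Set F)) :
    t ∉ Set.range (algebraMap (acl (∅ : Set F)) F) := by
  rintro ⟨c, rfl⟩
  exact ht c.2

end Pool.Agent.MPa267.PV
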