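import Pool.Agent.Lib.MP_a267a3_lc.PV.Scale

/-!
# MP_a267a3_lc, Part V.6, first half: `d/du` on algebraic functions through places
-/

set_option autoImplicit false

namespace Pool.Agent.MPa267.PV

open Polynomial

universe u v w

variable {k : Type u} [Field k]

/-- a polynomial relation between `u` and `z` -/
theorem exists_rel [IsAlgClosed k] {F : Type v} [Field F] [Algebra k F] (u z : F)
    (hu : u ∉ Set.range (algebraMap k F))
    (ha : ∀ z : F, IsAlgebraic (IntermediateField.adjoin k {u}) z) :
    ∃ Q : (k[X])[X], Q ≠ 0 ∧ ev2 (algebraMap k F) u z Q = 0 := by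
  classical
  let K := IntermediateField.adjoin k {u}
  let uK : K := ⟨u, IntermediateField.mem_adjoin_simple_self k u⟩
  let iF : Algebra k[X] F := ((aeval u : k[X] →ₐ[k] F) : k[X] →+* F).toAlgebra
  let iK : Algebra k[X] K := ((aeval uK : k[X] →ₐ[k] K) : k[X] →+* K).toAlgebra
  have eF : ∀ p : k[X], algebraMap k[X] F p = aeval u p := fun _ => rfl
  have eK : ∀ p : k[X], algebraMap k[X] K p = aeval uK p := fun _ => rfl
  have hKF : ∀ p : k[X], algebraMap k[X] F p = algebraMap K F (algebraMap k[X] K p) := by
    intro p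
    rw [eF, eK]
    exact (aeval_algebraMap_apply F uK p)
  have tower : IsScalarTower k[X] K F := IsScalarTower.of_algebraMap_eq hKF
  have injF : Function.Injective (algebraMap k[X] F) := by
    rw [injective_iff_map_eq_zero]
    intro p hp
    by_contra h0
    rw [eF, aeval_def] at hp
    exact eval₂_ne_zero (algebraMap k F) (fun a h => hu ⟨a, h.symm⟩) h0 hp
  have injK : Function.Injective (algebraMap k[X] K) := by
    intro p q hpq
    apply injF
    rw [hKF, hKF, hpq]
  have algK : Algebra.IsAlgebraic k[X] K := by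
    refine ⟨fun x => ?_⟩
    obtain ⟨r, s, hrs⟩ := (IntermediateField.mem_adjoin_simple_iff k (x : F)).1 x.2
    by_cases hs : s = 0
    · have hx : x = algebraMap k[X] K 0 := by
        apply Subtype.ext
        rw [hrs, hs]
        simp
      rw [hx]
      exact isAlgebraic_algebraMap _
    · have hs' : algebraMap k[X] F s ≠ 0 := by
        intro h
        apply hs
        apply injF
        rw [h, map_zero]
      refine ⟨C s * X - C r, ?_, ?_⟩
      · intro h
        have := congrArg (fun q => q.coeff 1) h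
        simp at this
        exact hs this
      · have hx : algebraMap k[X] K s * x = algebraMap k[X] K r := by
          apply Subtype.ext
          change algebraMap K F _ * (x : F) = algebraMap K F _
          rw [← hKF, ← hKF, hrs, ← eF, ← eF, mul_div_cancel₀ _ hs']
        rw [map_sub, map_mul, aeval_C, aeval_C, aeval_X, hx, sub_self]
  obtain ⟨Q, hQ, hQz⟩ := (ha z).restrictScalars k[X]
  refine ⟨Q, hQ, ?_⟩
  rw [aeval_def] at hQz
  rw [← hQz]
  rfl

/-- a relation with nonvanishing derivative -/
theorem exists_rel_sep [IsAlgClosed k] [CharZero k] {F : Type v} [Field F] [Algebra k F] (u z : F)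
    (hu : u ∉ Set.range (algebraMap k F))
    (ha : ∀ z : F, IsAlgebraic (IntermediateField.adjoin k {u}) z) :
    ∃ Q : (k[X])[X], ev2 (algebraMap k F) u z Q = 0 ∧
      ev2 (algebraMap k F) u z (derivative Q) ≠ 0 := by
  classical
  have hex : ∃ n : ℕ, ∃ Q : (k[X])[X], Q ≠ 0 ∧ ev2 (algebraMap k F) u z Q = 0 ∧ Q.natDegree = n := by
    obtain ⟨Q, h1, h2⟩ := exists_rel u z hu ha
    exact ⟨_, Q, h1, h2, rfl⟩
  obtain ⟨Q, hQ0, hQ, hQn⟩ := Nat.find_spec hex
  refine ⟨Q, hQ, fun hd => ?_⟩
  have hpos : Q.natDegree ≠ 0 := by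
    intro h
    rw [natDegree_eq_zero] at h
    obtain ⟨q, rfl⟩ := h
    rw [ev2_C] at hQ
    have hq : q ≠ 0 := by
      rintro rfl
      exact hQ0 (map_zero C)
    exact eval₂_ne_zero (algebraMap k F) (fun a h => hu ⟨a, h.symm⟩) hq hQ
  have hlt : (derivative Q).natDegree < Q.natDegree := natDegree_derivative_lt hpos
  have hd0 : derivative Q ≠ 0 := by
    intro h
    exact hpos (derivative_eq_zero.1 h)
  exact Nat.find_min hex (by rw [← hQn]; exact hlt) ⟨derivative Q, hd0, hd, rfl⟩

/-- places are compatible with the evaluation of polynomials -/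
theorem emb_ev2 {F : Type v} [Field F] [Algebra k F] {e : F →+* Om k} (he : Emb k e) {u z : F}
    {a b : LaurentSeries k} (hu : e u = jo k a) (hz : e z = jo k b) (Q : (k[X])[X]) :
    e (ev2 (algebraMap k F) u z Q) = jo k (ev2 (ccH k) a b Q) := by
  rw [map_ev2, map_ev2, hu, hz]
  congr 2
  ext c
  exact he c

/-- the derivative with respect to `u` -/
theorem exists_der [IsAlgClosed k] [CharZero k] {F : Type v} [Field F] [Algebra k F] (u : F)
    (hu : u ∉ Set.range (algebraMap k F))
    (ha : ∀ z : F, IsAlgebraic (IntermediateField.adjoin k {u}) z) :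
    ∃ D : F → F, ∀ z : F, ∀ e : F →+* Om k, Emb k e → ∀ a b : LaurentSeries k, e u = jo k a →
      e z = jo k b → e (D z) * jo k (eu a) = jo k (eu b) := by
  classical
  choose Q hQ hQ' using fun z : F => exists_rel_sep u z hu ha
  choose Q₁ hQ₁ using fun z : F => exists_partial (k := k) (Q z)
  refine ⟨fun z => - ev2 (algebraMap k F) u z (Q₁ z) /
    ev2 (algebraMap k F) u z (derivative (Q z)), ?_⟩
  intro z e he a b hea heb
  have h0 : ev2 (ccH k) a b (Q z) = 0 := by
    apply jo_inj
    rw [← emb_ev2 he hea heb, hQ, map_zero, map_zero]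
  have h1 := hQ₁ z a b
  rw [h0, eu_zero] at h1
  have h2 : jo k (ev2 (ccH k) a b (derivative (Q z))) ≠ 0 := by
    rw [← emb_ev2 he hea heb]
    intro h
    apply hQ' z
    apply e.injective
    rw [h, map_zero]
  rw [map_div₀, map_neg, emb_ev2 he hea heb, emb_ev2 he hea heb]
  rw [div_mul_eq_mul_div, div_eq_iff h2, ← map_neg, ← map_mul, ← map_mul]
  congr 1
  linear_combination h1

/-- integral multiples -/
theorem exists_monic [IsAlgClosed k] {F : Type v} [Field F] [Algebra k F] (u z : F)
    (hu : u ∉ Set.range (algebraMap k F))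
    (ha : ∀ z : F, IsAlgebraic (IntermediateField.adjoin k {u}) z) :
    ∃ (q : k[X]) (P : (k[X])[X]), q ≠ 0 ∧ P.Monic ∧
      ev2 (algebraMap k F) u (aeval u q * z) P = 0 := by
  classical
  obtain ⟨Q, hQ0, hQ⟩ := exists_rel u z hu ha
  refine ⟨Q.leadingCoeff, Q.integralNormalization, leadingCoeff_ne_zero.2 hQ0,
    monic_integralNormalization hQ0, ?_⟩
  have hpos : 1 ≤ Q.natDegree := by
    by_contra h
    have h' : Q.natDegree = 0 := by omega
    rw [natDegree_eq_zero] at h'
    obtain ⟨q, rfl⟩ := h'
    rw [ev2_C] at hQ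
    have hq : q ≠ 0 := by
      rintro rfl
      exact hQ0 (map_zero C)
    exact eval₂_ne_zero (algebraMap k F) (fun a h => hu ⟨a, h.symm⟩) hq hQ
  have := integralNormalization_eval₂_leadingCoeff_mul hpos (eval₂RingHom (algebraMap k F) u) z
  have h2 : Q.eval₂ (eval₂RingHom (algebraMap k F) u) z = 0 := hQ
  rw [h2, mul_zero] at this
  exact this

/-- integral elements are power series at finite places -/
theorem integral_place {F : Type v} [Field F] [Algebra k F] {u z : F} {P : (k[X])[X]}
    (hP : P.Monic) (hz : ev2 (algebraMap k F) u z P = 0) {e : F →+* Om k} (he : Emb k e)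
    {w : PowerSeries k} (hw : e u = io k w) {φ : LaurentSeries k} (hφ : e z = jo k φ) :
    ∃ f : PowerSeries k, φ = lo k f := by
  have h0 : ev2 (ccH k) (lo k w) φ P = 0 := by
    apply jo_inj
    rw [← emb_ev2 he (a := lo k w) hw hφ, hz, map_zero, map_zero]
  have h1 : IsIntegral (PowerSeries k) φ := by
    refine ⟨P.map (eval₂RingHom PowerSeries.C w), hP.map _, ?_⟩
    rw [eval₂_map]
    have : (algebraMap (PowerSeries k) (LaurentSeries k)).comp (eval₂RingHom PowerSeries.C w)
        = eval₂RingHom (ccH k) (lo k w) := by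
      apply Polynomial.ringHom_ext
      · intro a
        simp only [RingHom.comp_apply, coe_eval₂RingHom, eval₂_C]
        rfl
      · simp only [RingHom.comp_apply, coe_eval₂RingHom, eval₂_X]
        rfl
    rw [this]
    exact h0
  obtain ⟨f, hf⟩ := (IsIntegrallyClosed.isIntegral_iff).1 h1
  exact ⟨f, hf.symm⟩

end Pool.Agent.MPa267.PV
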