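import Pool.Agent.Lib.MP_a267a3_lc.PV.DerA

/-!
# MP_a267a3_lc, Part V.6, second half: the projective line is simply connected
-/

set_option autoImplicit false

namespace Pool.Agent.MPa267.PV

open Polynomial

universe u v w

variable {k : Type u} [Field k]

/-! ## Series -/

/-- `1 / s` -/
noncomputable def si (k : Type u) [Field k] : LaurentSeries k := HahnSeries.single (-1) 1

/-- `s` -/
noncomputable def ts (k : Type u) [Field k] : LaurentSeries k := HahnSeries.single 1 1

theorem lo_X : lo k PowerSeries.X = ts k := by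
  ext n
  rcases lt_or_ge n 0 with hn | hn
  · rw [lo_coeff_neg _ _ hn, ts, HahnSeries.coeff_single_of_ne (by omega)]
  · obtain ⟨m, rfl⟩ := Int.eq_ofNat_of_zero_le hn
    rw [lo_coeff_nat, PowerSeries.coeff_X, ts]
    by_cases h : m = 1
    · subst h; simp
    · rw [if_neg h, HahnSeries.coeff_single_of_ne (by exact_mod_cast h)]

theorem si_mul : si k * ts k = 1 := by
  rw [si, ts, HahnSeries.single_mul_single]
  simp

theorem eu_si : eu (si k) = - si k := by
  ext n
  rw [eu_coeff, HahnSeries.coeff_neg, si]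
  by_cases h : n = -1
  · subst h; simp
  · rw [HahnSeries.coeff_single_of_ne h]; simp

theorem ts_mul_coeff (f : LaurentSeries k) (n : ℤ) : (ts k * f).coeff n = f.coeff (n - 1) := by
  have := HahnSeries.coeff_single_mul_add (r := (1 : k)) (x := f) (a := n - 1) (b := (1 : ℤ))
  rw [one_mul, sub_add_cancel] at this
  exact this

/-- order at least `m` -/
def Od (m : ℤ) (f : LaurentSeries k) : Prop := ∀ n : ℤ, n < m → f.coeff n = 0

/-- `d/du` at infinity -/
noncomputable def dinf (f : LaurentSeries k) : LaurentSeries k := - (ts k * eu f)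

theorem od_dinf {m : ℤ} {f : LaurentSeries k} (h : Od m f) : Od (m + 1) (dinf f) := by
  intro n hn
  rw [dinf, HahnSeries.coeff_neg, ts_mul_coeff, eu_coeff, h (n - 1) (by omega), mul_zero, neg_zero]

theorem exists_od (f : LaurentSeries k) : ∃ N : ℕ, Od (-(N : ℤ)) f := by
  refine ⟨(HahnSeries.order f).natAbs, ?_⟩
  intro n hn
  apply HahnSeries.coeff_eq_zero_of_lt_order
  omega

theorem Od.mono {m m' : ℤ} {f : LaurentSeries k} (h : Od m f) (hm : m' ≤ m) : Od m' f :=
  fun n hn => h n (lt_of_lt_of_le hn hm)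

theorem od_one {f : LaurentSeries k} (h : Od 1 f) : ∃ g : PowerSeries k, f = lo k (PowerSeries.X * g) := by
  obtain ⟨g, rfl⟩ := exists_lo f (fun n hn => h n (by omega))
  have h0 : PowerSeries.constantCoeff g = 0 := by
    rw [← PowerSeries.coeff_zero_eq_constantCoeff_apply, ← lo_coeff_nat]
    exact h _ (by norm_num)
  obtain ⟨g', rfl⟩ := PowerSeries.X_dvd_iff.2 h0
  exact ⟨g', rfl⟩

/-- the derivative of a power series -/
noncomputable def dr (f : PowerSeries k) : PowerSeries k :=
  PowerSeries.mk fun n => ((n : k) + 1) * PowerSeries.coeff (n + 1) f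

theorem eu_lo (f : PowerSeries k) : eu (lo k f) = lo k (PowerSeries.X * dr f) := by
  rw [map_mul, lo_X]
  ext n
  rw [eu_coeff, ts_mul_coeff]
  rcases lt_or_ge n 1 with hn | hn
  · rw [lo_coeff_neg _ (n - 1) (by omega)]
    rcases lt_or_ge n 0 with hn' | hn'
    · rw [lo_coeff_neg _ n hn', mul_zero]
    · have : n = 0 := by omega
      subst this
      simp
  · obtain ⟨m, hm⟩ := Int.eq_ofNat_of_zero_le (show 0 ≤ n - 1 by omega)
    have hn2 : n = ((m + 1 : ℕ) : ℤ) := by push_cast; omega
    rw [hm, lo_coeff_nat, hn2, lo_coeff_nat, dr, PowerSeries.coeff_mk]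
    push_cast
    ring

theorem dr_iter_coeff [CharZero k] (f : PowerSeries k) (j : ℕ) : ∀ n : ℕ, ∃ c : k, c ≠ 0 ∧
    PowerSeries.coeff n (dr^[j] f) = c * PowerSeries.coeff (n + j) f := by
  induction j with
  | zero => intro n; exact ⟨1, one_ne_zero, by simp⟩
  | succ j ih =>
    intro n
    obtain ⟨c, hc, h⟩ := ih (n + 1)
    refine ⟨((n : k) + 1) * c, mul_ne_zero (by exact_mod_cast Nat.succ_ne_zero n) hc, ?_⟩
    rw [Function.iterate_succ_apply', dr, PowerSeries.coeff_mk, h]
    rw [show n + 1 + j = n + (j + 1) by ring]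
    ring

/-- a power series with vanishing `j`-th derivative is a polynomial -/
theorem poly_of_dr [CharZero k] (f : PowerSeries k) (j : ℕ) (h : dr^[j] f = 0) :
    ∃ p : k[X], p.eval₂ PowerSeries.C PowerSeries.X = f := by
  refine ⟨PowerSeries.trunc j f, ?_⟩
  rw [Polynomial.eval₂_C_X_eq_coe]
  ext n
  rw [Polynomial.coeff_coe, PowerSeries.coeff_trunc]
  split_ifs with hn
  · rfl
  · obtain ⟨c, hc, h1⟩ := dr_iter_coeff f j (n - j)
    rw [h, map_zero, Nat.sub_add_cancel (by omega)] at h1
    rcases mul_eq_zero.1 h1.symm with h2 | h2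
    · exact (hc h2).elim
    · exact h2.symm

/-- the coefficients of `p(1/s)` -/
theorem eval_si_coeff (p : k[X]) (n : ℕ) : (p.eval₂ (ccH k) (si k)).coeff (-(n : ℤ)) = p.coeff n := by
  induction p using Polynomial.induction_on' with
  | add p q hp hq => rw [eval₂_add, HahnSeries.coeff_add, hp, hq, coeff_add]
  | monomial m a =>
    have hcc : cc a = HahnSeries.single (0 : ℤ) a := by
      ext i
      rw [cc_coeff]
      split_ifs with h
      · subst h; simp
      · rw [HahnSeries.coeff_single_of_ne h]
    have hpow : (si k) ^ m = HahnSeries.single (-(m : ℤ)) (1 : k) := by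
      rw [si, HahnSeries.single_pow, one_pow]
      congr 1
      simp
    rw [eval₂_monomial, ccH_apply, hcc, hpow, HahnSeries.single_mul_single, zero_add, mul_one,
      coeff_monomial]
    split_ifs with h
    · subst h; simp
    · rw [HahnSeries.coeff_single_of_ne]
      omega

end Pool.Agent.MPa267.PV
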