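import Pool.Agent.Lib.MP_a267a3_lc.PV.Ser

/-!
# MP_a267a3_lc, Part V: Hensel's lemma and good places
-/

set_option autoImplicit false

namespace Pool.Agent.MPa267.PV

open Polynomial

universe u v

variable {k : Type u} [Field k]

/-- a separable monic polynomial over `k[[s]]` splits -/
theorem splits_of_separable [IsAlgClosed k] {P : (PowerSeries k)[X]} (hm : P.Monic)
    (hs : P.Separable) : P.Splits := by
  classical
  rw [splits_iff_card_roots]
  refine le_antisymm (card_roots' P) ?_
  let c : PowerSeries k →+* k := PowerSeries.constantCoeff (R := k)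
  have hm0 : (P.map c).Monic := hm.map c
  have hs0 : (P.map c).Separable := hs.map
  have hsp0 : (P.map c).Splits := IsAlgClosed.splits _
  have hcard0 : (P.map c).roots.card = P.natDegree := by
    rw [← hsp0.natDegree_eq_card_roots, hm.natDegree_map]
  have hnd : (P.map c).roots.Nodup := nodup_roots hs0
  have hsub : (P.map c).roots.toFinset ⊆ P.roots.toFinset.image c := by
    intro a ha
    rw [Multiset.mem_toFinset, mem_roots hm0.ne_zero, IsRoot.def] at ha
    have hev : ∀ Q : (PowerSeries k)[X], c (Q.eval (PowerSeries.C a)) = (Q.map c).eval a := by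
      intro Q
      rw [eval_map, eval, hom_eval₂, RingHom.comp_id]
      congr 1
    have h1 : P.eval (PowerSeries.C a) ∈ Ideal.span {(PowerSeries.X : PowerSeries k)} := by
      rw [Ideal.mem_span_singleton, PowerSeries.X_dvd_iff]
      change c _ = 0
      rw [hev, ha]
    have h2 : IsUnit (Ideal.Quotient.mk (Ideal.span {(PowerSeries.X : PowerSeries k)})
        ((derivative P).eval (PowerSeries.C a))) := by
      apply IsUnit.map
      rw [PowerSeries.isUnit_iff_constantCoeff, isUnit_iff_ne_zero]
      change c _ ≠ 0
      rw [hev, ← derivative_map]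
      intro h0
      obtain ⟨A, B, hAB⟩ := hs0
      have := congrArg (eval a) hAB
      rw [eval_add, eval_mul, eval_mul, ha, h0, mul_zero, mul_zero, add_zero, eval_one] at this
      exact zero_ne_one this
    obtain ⟨α, hα, hαa⟩ := HenselianRing.is_henselian P hm (PowerSeries.C a) h1 h2
    rw [Finset.mem_image]
    refine ⟨α, ?_, ?_⟩
    · rw [Multiset.mem_toFinset, mem_roots hm.ne_zero]
      exact hα
    · rw [Ideal.mem_span_singleton, PowerSeries.X_dvd_iff, map_sub, sub_eq_zero,
        PowerSeries.constantCoeff_C] at hαa
      exact hαa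
  calc P.natDegree = (P.map c).roots.toFinset.card := by
        rw [Multiset.toFinset_card_of_nodup hnd, hcard0]
    _ ≤ (P.roots.toFinset.image c).card := Finset.card_le_card hsub
    _ ≤ P.roots.toFinset.card := Finset.card_image_le
    _ ≤ P.roots.card := Multiset.toFinset_card_le _

/-- `p(w)` for `p` over `k` and `w` a power series -/
theorem emb_aeval {F : Type v} [Field F] [Algebra k F] {e : F →+* Om k} (he : Emb k e) {u : F}
    {w : PowerSeries k} (hw : e u = io k w) (p : k[X]) :
    e (aeval u p) = io k (p.eval₂ PowerSeries.C w) := by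
  rw [aeval_def, hom_eval₂, hom_eval₂, hw]
  congr 1
  ext c
  exact he c

/-- elements of `k(u)` are power series at almost all places -/
theorem good_base {F : Type v} [Field F] [Algebra k F] (u : F) (c : F)
    (hc : c ∈ IntermediateField.adjoin k {u}) :
    ∃ S : Set k, S.Finite ∧ ∀ e : F →+* Om k, Emb k e → ∀ w : PowerSeries k, e u = io k w →
      PowerSeries.constantCoeff w ∉ S → ∃ f : PowerSeries k, e c = io k f := by
  classical
  obtain ⟨r, s, rfl⟩ := (IntermediateField.mem_adjoin_simple_iff k c).1 hc
  by_cases hs : s = 0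
  · refine ⟨∅, Set.finite_empty, fun e _ w _ _ => ⟨0, ?_⟩⟩
    rw [hs, map_zero, div_zero, map_zero, map_zero]
  · refine ⟨{x | s.eval x = 0}, ?_, ?_⟩
    · refine (s.roots.toFinset.finite_toSet).subset ?_
      intro x hx
      rw [Finset.mem_coe, Multiset.mem_toFinset, mem_roots hs]
      exact hx
    · intro e he w hw hx
      have hx' : PowerSeries.constantCoeff (s.eval₂ PowerSeries.C w) ≠ 0 := by
        have : PowerSeries.constantCoeff (s.eval₂ PowerSeries.C w)
            = s.eval (PowerSeries.constantCoeff w) := by
          rw [hom_eval₂, eval]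
          congr 1
        rw [this]
        exact hx
      refine ⟨r.eval₂ PowerSeries.C w * (s.eval₂ PowerSeries.C w)⁻¹, ?_⟩
      have h1 := PowerSeries.mul_inv_cancel _ hx'
      have h2 : io k (s.eval₂ PowerSeries.C w) ≠ 0 := by
        intro h0
        have h3 := congrArg (io k) h1
        rw [map_mul, h0, zero_mul, map_one] at h3
        exact zero_ne_one h3
      rw [map_div₀, emb_aeval he hw, emb_aeval he hw, map_mul, div_eq_iff h2, mul_assoc, ← map_mul,
        mul_comm (_)⁻¹, h1, map_one, mul_one]

/-- the coefficients of a polynomial over `k(u)` are power series at almost all places -/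
theorem good_poly {F : Type v} [Field F] [Algebra k F] (u : F)
    (A : (IntermediateField.adjoin k {u})[X]) :
    ∃ S : Set k, S.Finite ∧ ∀ e : F →+* Om k, Emb k e → ∀ w : PowerSeries k, e u = io k w →
      PowerSeries.constantCoeff w ∉ S →
        ∃ B : (PowerSeries k)[X],
          B.map (io k) = A.map (e.comp (algebraMap (IntermediateField.adjoin k {u}) F)) := by
  classical
  choose S hSf hS using fun c : IntermediateField.adjoin k {u} => good_base u (c : F) c.2
  refine ⟨⋃ n ∈ A.support, S (A.coeff n), ?_, ?_⟩
  · exact Set.Finite.biUnion A.support.finite_toSet fun n _ => hSf _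
  · intro e he w hw hx
    have : A.map (e.comp (algebraMap (IntermediateField.adjoin k {u}) F)) ∈ lifts (io k) := by
      rw [lifts_iff_coeff_lifts]
      intro n
      by_cases hn : n ∈ A.support
      · obtain ⟨f, hf⟩ := hS (A.coeff n) e he w hw (fun h => hx (by
          rw [Set.mem_iUnion₂]
          exact ⟨n, hn, h⟩))
        refine ⟨f, ?_⟩
        rw [coeff_map, ← hf]
        rfl
      · refine ⟨0, ?_⟩
        rw [coeff_map, notMem_support_iff.1 hn, map_zero, map_zero]
    rw [mem_lifts] at this
    exact this

/-- **PV2**: every element is a power series at almost all places of the `u`-line -/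
theorem good_place [IsAlgClosed k] [CharZero k] {F : Type v} [Field F] [Algebra k F] (u z : F)
    (hz : IsAlgebraic (IntermediateField.adjoin k {u}) z) :
    ∃ S : Set k, S.Finite ∧ ∀ e : F →+* Om k, Emb k e → ∀ w : PowerSeries k, e u = io k w →
      PowerSeries.constantCoeff w ∉ S → ∃ f : PowerSeries k, e z = io k f := by
  classical
  let K := IntermediateField.adjoin k {u}
  have hint : IsIntegral K z := hz.isIntegral
  have hch : CharZero K := charZero_of_injective_algebraMap (algebraMap k K).injective
  have hsep : (minpoly K z).Separable := (minpoly.irreducible hint).separable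
  obtain ⟨A, B, hAB⟩ := hsep
  obtain ⟨S1, hS1f, hS1⟩ := good_poly u (minpoly K z)
  obtain ⟨S2, hS2f, hS2⟩ := good_poly u A
  obtain ⟨S3, hS3f, hS3⟩ := good_poly u B
  refine ⟨S1 ∪ S2 ∪ S3, (hS1f.union hS2f).union hS3f, ?_⟩
  intro e he w hw hx
  have hx1 : PowerSeries.constantCoeff w ∉ S1 := fun h => hx (Or.inl (Or.inl h))
  have hx2 : PowerSeries.constantCoeff w ∉ S2 := fun h => hx (Or.inl (Or.inr h))
  have hx3 : PowerSeries.constantCoeff w ∉ S3 := fun h => hx (Or.inr h)
  obtain ⟨P, hP⟩ := hS1 e he w hw hx1
  obtain ⟨A', hA'⟩ := hS2 e he w hw hx2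
  obtain ⟨B', hB'⟩ := hS3 e he w hw hx3
  have hPm : P.Monic := by
    have : (P.map (io k)).Monic := by
      rw [hP]
      exact (minpoly.monic hint).map _
    exact (Function.Injective.monic_map_iff io_inj).2 this
  have hPs : P.Separable := by
    refine ⟨A', B', ?_⟩
    apply map_injective (io k) io_inj
    rw [Polynomial.map_add, Polynomial.map_mul, Polynomial.map_mul, ← derivative_map, hP, hA', hB',
      derivative_map, ← Polynomial.map_mul, ← Polynomial.map_mul, ← Polynomial.map_add, hAB,
      Polynomial.map_one, Polynomial.map_one]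
  have hsp := splits_of_separable hPm hPs
  have hroot : (P.map (io k)).IsRoot (e z) := by
    rw [hP, IsRoot.def, eval_map, ← hom_eval₂]
    have : eval₂ (algebraMap K F) z (minpoly K z) = 0 := minpoly.aeval K z
    rw [this, map_zero]
  have hmem : e z ∈ (P.map (io k)).roots := by
    rw [mem_roots (hPm.map _).ne_zero]
    exact hroot
  rw [hsp.roots_map_of_injective io_inj, Multiset.mem_map] at hmem
  obtain ⟨f, -, hf⟩ := hmem
  exact ⟨f, hf.symm⟩

end Pool.Agent.MPa267.PV
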